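import Pool.Agent.W2helper74.SOS.Stm4
import Pool.Agent.W2helper12.SOS.J1
import Pool.Agent.W2helper66.SOS.J2
import Pool.Agent.W2helper19.SOS.J3
import Pool.Agent.W2helper22.SOSG.G

/-!
# MP_ce7760_an, project S1FULL, piece P11 (`LemH`)
-/

set_option autoImplicit false

open MvPolynomial

namespace Pool.Agent.W2helper62.SOS

open Pool.Agent.W2helper74.SOS
open Pool.Agent.W2helper19.SOS
open Pool.Agent.W2helper22.SOSG (dvd_iff dvd_mul sb sb_lf sub_sb_dvd exists_eval_ne)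

/-! ### hyperplanes -/

/-- the projection along `e_i₀` onto `ker (lf v)` -/
noncomputable def Qm {n : ℕ} (v : Fin n → ℂ) (i₀ : Fin n) : Matrix (Fin n) (Fin n) ℂ :=
  fun k => Pi.single k 1 - (if k = i₀ then (v i₀)⁻¹ • v else 0)

/-- a parametrisation of `ker (lf v)` -/
noncomputable def Sm {j : ℕ} (v : Fin (j + 1) → ℂ) (i₀ : Fin (j + 1)) :
    Matrix (Fin (j + 1)) (Fin j) ℂ :=
  fun k a => Qm v i₀ k (i₀.succAbove a)

/-- the projection which forgets the coordinate `i₀` -/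
def Pm {j : ℕ} (i₀ : Fin (j + 1)) : Matrix (Fin j) (Fin (j + 1)) ℂ :=
  fun a k => if k = i₀.succAbove a then 1 else 0

lemma Sm_Pm {j : ℕ} (v : Fin (j + 1) → ℂ) (i₀ : Fin (j + 1)) (h : v i₀ ≠ 0) :
    Sm v i₀ * Pm i₀ = Qm v i₀ := by
  ext k k'
  rw [Matrix.mul_apply]
  rcases Fin.eq_self_or_eq_succAbove i₀ k' with rfl | ⟨a, rfl⟩
  · rw [Finset.sum_eq_zero]
    · unfold Qm
      by_cases hk : k = k'
      · subst hk
        simp [h]
      · simp [hk, Ne.symm hk]
    · intro a _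
      simp [Pm, Fin.ne_succAbove]
  · rw [Finset.sum_eq_single a]
    · simp [Sm, Pm]
    · intro b _ hb
      simp [Pm, Ne.symm hb]
    · simp

lemma res_Qm {n : ℕ} (v : Fin n → ℂ) (i₀ : Fin n) : res (Qm v i₀) = sb v i₀ := by
  apply MvPolynomial.algHom_ext
  intro k
  rw [res_X, sb, aeval_X, Qm]
  have h1 : lf (Pi.single k 1 - (if k = i₀ then (v i₀)⁻¹ • v else 0)) =
      lf (Pi.single k 1) - lf (if k = i₀ then (v i₀)⁻¹ • v else 0) := by
    rw [← lfL_apply, map_sub]; rfl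
  rw [h1, lf_single]
  congr 1
  split_ifs
  · rw [lf_smul, smul_eq_C_mul]
  · exact lf_zero

lemma dvd_of_res_Sm {j : ℕ} (v : Fin (j + 1) → ℂ) (i₀ : Fin (j + 1)) (h : v i₀ ≠ 0)
    {p : Pol (j + 1)} (hp : res (Sm v i₀) p = 0) : lf v ∣ p := by
  rw [dvd_iff v i₀ h, ← res_Qm, ← Sm_Pm v i₀ h, res_mul, AlgHom.comp_apply, hp, map_zero]

lemma vecMul_Sm {j : ℕ} (v : Fin (j + 1) → ℂ) (i₀ : Fin (j + 1)) (h : v i₀ ≠ 0) :
    Matrix.vecMul v (Sm v i₀) = 0 := by
  funext a
  simp only [Matrix.vecMul, dotProduct, Pi.zero_apply, Sm, Qm, Pi.sub_apply, mul_sub,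
    Finset.sum_sub_distrib]
  rw [Finset.sum_eq_single (i₀.succAbove a), Finset.sum_eq_single i₀]
  · simp [h]
  · intro b _ hb
    simp [hb]
  · simp
  · intro b _ hb
    rw [Pi.single_eq_of_ne (Ne.symm hb), mul_zero]
  · simp

/-- every linear form divides a nonzero element of `U` -/
lemma exists_mult {j : ℕ} (U : Submodule ℂ (Pol (j + 1))) [Module.Finite ℂ U]
    (h : ∀ S : Matrix (Fin (j + 1)) (Fin j) ℂ, rk U S < Module.finrank ℂ U)
    (v : Fin (j + 1) → ℂ) (i₀ : Fin (j + 1)) (hv : v i₀ ≠ 0) :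
    ∃ g : Pol (j + 1), g ≠ 0 ∧ lf v * g ∈ U := by
  have h1 := finrank_ker_add U (Sm v i₀)
  have h2 := h (Sm v i₀)
  have h3 : U ⊓ LinearMap.ker (res (Sm v i₀)).toLinearMap ≠ ⊥ := by
    intro hb
    rw [hb, finrank_bot] at h1
    omega
  obtain ⟨p, hp, hp0⟩ := Submodule.exists_mem_ne_zero_of_ne_bot h3
  obtain ⟨hpU, hpk⟩ := Submodule.mem_inf.1 hp
  obtain ⟨g, rfl⟩ := dvd_of_res_Sm v i₀ hv (LinearMap.mem_ker.1 hpk)
  exact ⟨g, right_ne_zero_of_mul hp0, hpU⟩

/-- only finitely many members of a pencil of linear forms divide a nonzero polynomial; a weak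
version -/
lemma eq_zero_of_pencil {n : ℕ} (q ℓ μ : Pol n) (hℓ : ℓ ≠ 0) (hμ : μ ≠ 0)
    (h : ∀ t : ℂ, t ≠ 0 → ℓ + C t * μ ∣ q) : q = 0 := by
  by_contra hq
  obtain ⟨x, hx⟩ := exists_eval_ne (mul_ne_zero (mul_ne_zero hq hℓ) hμ)
  rw [map_mul, map_mul] at hx
  have h1 : eval x μ ≠ 0 := right_ne_zero_of_mul hx
  have h2 : eval x ℓ ≠ 0 := right_ne_zero_of_mul (left_ne_zero_of_mul hx)
  have h3 : eval x q ≠ 0 := left_ne_zero_of_mul (left_ne_zero_of_mul hx)
  obtain ⟨g, hg⟩ := h (-(eval x ℓ) / eval x μ) (div_ne_zero (neg_ne_zero.2 h2) h1)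
  apply h3
  rw [hg, map_mul, map_add, map_mul, eval_C, div_mul_cancel₀ _ h1]
  ring

/-! ### the pencil `X_last + τ X_k` -/

/-- `e_last + τ e_k` in `i + 1` variables -/
noncomputable def wv {i : ℕ} (k : Fin i) (τ : ℂ) : Fin (i + 1) → ℂ :=
  Pi.single (Fin.last i) 1 + τ • Pi.single k.castSucc 1

lemma wv_last {i : ℕ} (k : Fin i) (τ : ℂ) : wv k τ (Fin.last i) = 1 := by
  simp [wv]

lemma wv_castSucc {i : ℕ} (k c : Fin i) (τ : ℂ) :
    wv k τ c.castSucc = if c = k then τ else 0 := by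
  simp [wv, Pi.single_apply]

/-- the family of parametrisations -/
noncomputable def Mf {i : ℕ} (k : Fin i) : Matrix (Fin (i + 1)) (Fin i) (Polynomial ℂ) := fun r c =>
  Fin.lastCases (motive := fun _ => Polynomial ℂ) (if c = k then -Polynomial.X else 0)
    (fun r' => if r' = c then 1 else 0) r

lemma Mf_eval {i : ℕ} (k : Fin i) (τ : ℂ) :
    (Mf k).map (Polynomial.eval τ) = Sm (wv k τ) (Fin.last i) := by
  ext r c
  show Polynomial.eval τ (Mf k r c) = _
  unfold Sm Qm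
  rw [wv_last, Fin.succAbove_last]
  refine Fin.lastCases ?_ (fun r' => ?_) r
  · simp only [Mf, Fin.lastCases_last, if_true, Pi.sub_apply, Pi.smul_apply, wv_castSucc]
    rw [Pi.single_eq_of_ne (Fin.castSucc_ne_last c)]
    split_ifs <;> simp
  · simp only [Mf, Fin.lastCases_castSucc, Fin.castSucc_ne_last, if_false, sub_zero,
      Pi.single_apply, Fin.castSucc_inj]
    by_cases h : r' = c
    · simp [h]
    · rw [if_neg h, if_neg (Ne.symm h)]
      simp

lemma Sm_zero {i : ℕ} (k : Fin i) : Sm (wv k 0) (Fin.last i) = emb i (i + 1) := by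
  rw [← Mf_eval]
  ext r c
  show Polynomial.eval 0 (Mf k r c) = _
  refine Fin.lastCases ?_ (fun r' => ?_) r
  · rw [emb_last]
    simp only [Mf, Fin.lastCases_last, Pi.zero_apply]
    split_ifs <;> simp
  · rw [emb_castSucc]
    simp only [Mf, Fin.lastCases_castSucc, Pi.single_apply]
    by_cases h : r' = c
    · simp [h]
    · rw [if_neg h, if_neg (Ne.symm h)]
      simp

lemma lf_wv {i : ℕ} (k : Fin i) (τ : ℂ) :
    lf (wv k τ) = X (Fin.last i) + C τ * X k.castSucc := by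
  rw [wv, lf_add, lf_smul, lf_single, lf_single, smul_eq_C_mul]

/-- `h₀ ≠ 0` does not vanish on almost all members of the pencil -/
lemma finite_res {i : ℕ} (k : Fin i) {h₀ : Pol (i + 1)} (h : h₀ ≠ 0) :
    {τ : ℂ | res (Sm (wv k τ) (Fin.last i)) h₀ = 0}.Finite := by
  obtain ⟨τ₁, hτ₁⟩ : ∃ τ₁, res (Sm (wv k τ₁) (Fin.last i)) h₀ ≠ 0 := by
    by_contra hcon
    push Not at hcon
    apply h
    refine eq_zero_of_pencil h₀ (X (Fin.last i)) (X k.castSucc) (X_ne_zero _) (X_ne_zero _)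
      fun t _ => ?_
    rw [← lf_wv]
    exact dvd_of_res_Sm _ _ (by rw [wv_last]; exact one_ne_zero) (hcon t)
  have hrs : ∀ T : Matrix (Fin (i + 1)) (Fin i) ℂ,
      rs (Submodule.span ℂ {h₀}) T = Submodule.span ℂ {res T h₀} := by
    intro T
    unfold rs
    rw [Submodule.map_span, Set.image_singleton]
    rfl
  have hB := Pool.Agent.W2helper12.SOS.pB2 (i + 1) i (Submodule.span ℂ {h₀}) inferInstance (Mf k) τ₁
  refine hB.subset fun τ hτ => ?_
  have hτ' : res (Sm (wv k τ) (Fin.last i)) h₀ = 0 := hτ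
  show rk _ _ < rk _ _
  rw [Mf_eval, Mf_eval]
  unfold rk
  rw [hrs, hrs, hτ', finrank_span_singleton hτ₁]
  simp

/-- (c): for a good member `λ` of the pencil `λ g₀ ∈ U` -/
lemma step {i : ℕ} (U : Submodule ℂ (Pol (i + 2))) [hf : Module.Finite ℂ U]
    (h1 : ∀ S : Matrix (Fin (i + 2)) (Fin (i + 1)) ℂ, rk U S < Module.finrank ℂ U)
    (g₀ : Pol (i + 2)) (hg₀ : X (Fin.last (i + 1)) * g₀ ∈ U) (k : Fin i) (τ : ℂ)
    (hτ : res (Sm (wv k τ) (Fin.last i)) (res (emb (i + 1) (i + 2)) g₀) ≠ 0)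
    (hrk : Module.finrank ℂ U ≤ rk U (emb (i + 1) (i + 2) * Sm (wv k τ) (Fin.last i)) + 2) :
    (X (Fin.last i).castSucc + C τ * X k.castSucc.castSucc) * g₀ ∈ U := by
  obtain ⟨bv, hbv⟩ : ∃ bv : Fin (i + 2) → ℂ,
    bv = Pi.single (Fin.last i).castSucc 1 + τ • Pi.single k.castSucc.castSucc 1 := ⟨_, rfl⟩
  have hlam : lf bv = X (Fin.last i).castSucc + C τ * X k.castSucc.castSucc := by
    rw [hbv, lf_add, lf_smul, lf_single, lf_single, smul_eq_C_mul]
  have hbv1 : bv (Fin.last i).castSucc = 1 := by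
    rw [hbv]
    simp
  have hbv2 : bv (Fin.last (i + 1)) = 0 := by
    rw [hbv]
    simp [(Fin.castSucc_ne_last _).symm]
  have hlam0 : lf bv ≠ 0 := lf_ne_zero (fun h => by rw [h] at hbv1; simp at hbv1)
  rw [← hlam]
  obtain ⟨R, hR⟩ : ∃ R, R = emb (i + 1) (i + 2) * Sm (wv k τ) (Fin.last i) := ⟨_, rfl⟩
  rw [← hR] at hrk
  have hRl : res R (X (Fin.last (i + 1))) = 0 := by
    rw [hR, res_mul, AlgHom.comp_apply, res_emb_last, map_zero]
  have hRb : res R (lf bv) = 0 := by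
    rw [hR, res_mul, AlgHom.comp_apply, hlam, map_add, map_mul, res_emb_castSucc,
      res_emb_castSucc, MvPolynomial.algHom_C, MvPolynomial.algebraMap_eq, ← lf_wv, res_lf,
      vecMul_Sm _ _ (by rw [wv_last]; exact one_ne_zero), lf_zero]
  have hRg : res R g₀ ≠ 0 := by
    rw [hR, res_mul, AlgHom.comp_apply]
    exact hτ
  have hg00 : g₀ ≠ 0 := by
    rintro rfl
    exact hRg (map_zero _)
  have hnd : ¬ lf bv ∣ g₀ := by
    rintro ⟨q, rfl⟩
    exact hRg (by rw [map_mul, hRb, zero_mul])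
  obtain ⟨g₁, hg₁, hg₁U⟩ := exists_mult U h1 bv (Fin.last i).castSucc
    (by rw [hbv1]; exact one_ne_zero)
  have hbX : ¬ lf bv ∣ X (Fin.last (i + 1)) := by
    rw [dvd_iff bv (Fin.last i).castSucc (by rw [hbv1]; exact one_ne_zero), sb, aeval_X,
      if_neg (Fin.castSucc_ne_last _).symm, sub_zero]
    exact X_ne_zero _
  -- the kernel
  have hli : LinearIndependent ℂ ![X (Fin.last (i + 1)) * g₀, lf bv * g₁] := by
    rw [LinearIndependent.pair_iff]
    intro s t hst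
    have hs : s = 0 := by
      by_contra hs
      have hd : lf bv ∣ X (Fin.last (i + 1)) * g₀ := by
        refine ⟨-(s⁻¹ * t) • g₁, ?_⟩
        have h2 : X (Fin.last (i + 1)) * g₀ = s⁻¹ • (s • (X (Fin.last (i + 1)) * g₀)) := by
          rw [smul_smul, inv_mul_cancel₀ hs, one_smul]
        rw [h2, eq_neg_of_add_eq_zero_left hst, mul_smul_comm, neg_smul, smul_neg, smul_smul]
      rcases dvd_mul bv (Fin.last i).castSucc (by rw [hbv1]; exact one_ne_zero) _ _ hd with h3 | h3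
      · exact hbX h3
      · exact hnd h3
    rw [hs, zero_smul, zero_add] at hst
    exact ⟨hs, (smul_eq_zero.1 hst).resolve_right (mul_ne_zero hlam0 hg₁)⟩
  obtain ⟨K, hK⟩ : ∃ K, K = U ⊓ LinearMap.ker (res R).toLinearMap := ⟨_, rfl⟩
  have hKf : Module.Finite ℂ K := by
    rw [hK]
    exact Submodule.finiteDimensional_inf_left _ _
  have hKr := finrank_ker_add U R
  rw [← hK] at hKr
  have hspan : Submodule.span ℂ {X (Fin.last (i + 1)) * g₀, lf bv * g₁} = K := by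
    apply Submodule.eq_of_le_of_finrank_le
    · rw [Submodule.span_le, hK]
      rintro p (rfl | rfl)
      · refine Submodule.mem_inf.2 ⟨hg₀, LinearMap.mem_ker.2 ?_⟩
        rw [AlgHom.toLinearMap_apply, map_mul, hRl, zero_mul]
      · refine Submodule.mem_inf.2 ⟨hg₁U, LinearMap.mem_ker.2 ?_⟩
        rw [AlgHom.toLinearMap_apply, map_mul, hRb, zero_mul]
    · have h2 := finrank_span_eq_card hli
      rw [Matrix.range_cons, Matrix.range_cons, Matrix.range_empty, Set.union_empty,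
        Set.singleton_union, Fintype.card_fin] at h2
      rw [h2]
      omega
  -- the pencil
  have hpen : ∀ t : ℂ, t ≠ 0 → ∃ c : ℂ, res R g₁ = c • res R g₀ ∧
      X (Fin.last (i + 1)) + C t * lf bv ∣ g₁ - c • g₀ := by
    intro t ht
    obtain ⟨cv, hcv⟩ : ∃ cv : Fin (i + 2) → ℂ,
      cv = Pi.single (Fin.last (i + 1)) 1 + t • bv := ⟨_, rfl⟩
    have hl : lf cv = X (Fin.last (i + 1)) + C t * lf bv := by
      rw [hcv, lf_add, lf_smul, lf_single, smul_eq_C_mul]
    have hcv1 : cv (Fin.last (i + 1)) ≠ 0 := by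
      rw [hcv]
      simp [hbv2]
    have hl0 : lf cv ≠ 0 := lf_ne_zero (fun h => hcv1 (by rw [h]; rfl))
    rw [← hl]
    obtain ⟨g, hg, hgU⟩ := exists_mult U h1 cv (Fin.last (i + 1)) hcv1
    have hRc : res R (lf cv) = 0 := by
      rw [hl, map_add, map_mul, hRl, hRb, mul_zero, add_zero]
    have hmem : lf cv * g ∈ K := by
      rw [hK]
      refine Submodule.mem_inf.2 ⟨hgU, LinearMap.mem_ker.2 ?_⟩
      rw [AlgHom.toLinearMap_apply, map_mul, hRc, zero_mul]
    rw [← hspan, Submodule.mem_span_pair] at hmem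
    obtain ⟨x, y, hxy⟩ := hmem
    have hd : lf cv ∣ lf bv * (C y * g₁ - C (t * x) * g₀) := by
      refine ⟨g - C x * g₀, ?_⟩
      rw [mul_sub (lf cv), ← hxy, hl, smul_eq_C_mul, smul_eq_C_mul, C_mul]
      ring
    have hnc : ¬ lf cv ∣ lf bv := by
      rw [dvd_iff cv (Fin.last (i + 1)) hcv1, sb_lf, hbv2, zero_mul, map_zero, zero_mul, sub_zero]
      exact hlam0
    have hd2 : lf cv ∣ C y * g₁ - C (t * x) * g₀ :=
      (dvd_mul cv (Fin.last (i + 1)) hcv1 _ _ hd).resolve_left hnc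
    have hR2 : y • res R g₁ = (t * x) • res R g₀ := by
      obtain ⟨q, hq⟩ := hd2
      have h2 : res R (C y * g₁ - C (t * x) * g₀) = 0 := by
        rw [hq, map_mul, hRc, zero_mul]
      rw [← smul_eq_C_mul, ← smul_eq_C_mul, map_sub, map_smul, map_smul, sub_eq_zero] at h2
      exact h2
    have hy : y ≠ 0 := by
      intro hy
      rw [hy, zero_smul, eq_comm, smul_eq_zero] at hR2
      have hx : x = 0 := by
        rcases hR2 with h2 | h2
        · exact (mul_eq_zero.1 h2).resolve_left ht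
        · exact absurd h2 hRg
      rw [hx, hy, zero_smul, zero_smul, zero_add] at hxy
      exact (mul_ne_zero hl0 hg) hxy.symm
    refine ⟨y⁻¹ * (t * x), ?_, ?_⟩
    · rw [mul_smul, ← hR2, smul_smul, inv_mul_cancel₀ hy, one_smul]
    · have h2 : g₁ - (y⁻¹ * (t * x)) • g₀ = (C y * g₁ - C (t * x) * g₀) * C y⁻¹ := by
        have h3 : (C y * C y⁻¹ : Pol (i + 2)) = 1 := by
          rw [← C_mul, mul_inv_cancel₀ hy, C_1]
        rw [smul_eq_C_mul, C_mul (a := y⁻¹)]
        linear_combination (-g₁) * h3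
      rw [h2]
      exact Dvd.dvd.mul_right hd2 _
  obtain ⟨c, hc, -⟩ := hpen 1 one_ne_zero
  have hg : g₁ - c • g₀ = 0 := by
    refine eq_zero_of_pencil _ (X (Fin.last (i + 1))) (lf bv) (X_ne_zero _) hlam0 fun t ht => ?_
    obtain ⟨c', hc', hd⟩ := hpen t ht
    have h2 : (c' - c) • res R g₀ = 0 := by
      rw [sub_smul, ← hc', ← hc, sub_self]
    have h3 : c' = c := sub_eq_zero.1 ((smul_eq_zero.1 h2).resolve_right hRg)
    rwa [h3] at hd
  rw [sub_eq_zero] at hg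
  have hc0 : c ≠ 0 := by
    rintro rfl
    rw [zero_smul] at hg
    exact hg₁ hg
  have h2 : lf bv * g₀ = c⁻¹ • (lf bv * g₁) := by
    rw [hg, mul_smul_comm, smul_smul, inv_mul_cancel₀ hc0, one_smul]
  rw [h2]
  exact U.smul_mem _ hg₁U

theorem core {i : ℕ} (hi : 1 ≤ i) (U : Submodule ℂ (Pol (i + 2))) [hf : Module.Finite ℂ U]
    (h1 : ∀ S : Matrix (Fin (i + 2)) (Fin (i + 1)) ℂ, rk U S ≤ rk U (emb (i + 1) (i + 2)))
    (h2 : rk U (emb (i + 1) (i + 2)) + 1 = Module.finrank ℂ U)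
    (h3 : rk U (emb (i + 1) (i + 2) * emb i (i + 1)) + 2 = Module.finrank ℂ U) :
    ∃ h : Pol (i + 2), h ≠ 0 ∧ ∀ k, X k * h ∈ U := by
  obtain ⟨U₀, hU₀⟩ : ∃ U₀, U₀ = rs U (emb (i + 1) (i + 2)) := ⟨_, rfl⟩
  have hU₀f : Module.Finite ℂ U₀ := by
    rw [hU₀]
    infer_instance
  have hD : Module.finrank ℂ (DD U) = 1 := by
    have e0 : Module.finrank ℂ (DD U) + rk U (emb (i + 1) (i + 2)) = Module.finrank ℂ U :=
      finrank_DD U
    omega
  have hD₀ : Module.finrank ℂ (DD U₀) = 1 := by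
    have e0 := finrank_DD U₀
    have e : rk U₀ (emb i (i + 1)) = rk U (emb (i + 1) (i + 2) * emb i (i + 1)) := by
      rw [rk_mul, hU₀]
    have e2 : Module.finrank ℂ U₀ = rk U (emb (i + 1) (i + 2)) := by rw [hU₀]; rfl
    rw [e, e2] at e0
    omega
  have hDne : DD U ≠ ⊥ := by
    intro hb
    rw [hb, finrank_bot] at hD
    omega
  obtain ⟨g₀, hg₀D, hg₀⟩ := Submodule.exists_mem_ne_zero_of_ne_bot hDne
  have hh₀ : res (emb (i + 1) (i + 2)) g₀ ≠ 0 := by
    intro h0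
    obtain ⟨g', rfl⟩ := res_emb_eq_zero h0
    obtain ⟨f, hf0, hf1⟩ := Pool.Agent.W2helper66.SOS.b5 (i + 1) U hf (by omega) h1
      ⟨_, hg₀D, mul_ne_zero (X_ne_zero _) hg₀, ⟨g', by
        rw [LinearMap.mulLeft_apply]; ring⟩⟩
    rw [← hU₀] at hf1
    have hle : VF f ≤ DD U₀ := by
      rintro p ⟨w, rfl⟩
      have h4 := hf1 (Pi.single (Fin.last i) 1) w
      rw [lf_single, mul_assoc] at h4
      exact h4
    have h5 := Submodule.finrank_mono hle
    rw [finrank_VF hf0] at h5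
    omega
  have hgood : ∀ k : Fin i, {τ : ℂ | (X (Fin.last i).castSucc + C τ * X k.castSucc.castSucc) *
      g₀ ∈ U}.Infinite := by
    intro k
    have f1 := finite_res k hh₀
    have f2 := Pool.Agent.W2helper12.SOS.pB2 (i + 1) i U₀ hU₀f (Mf k) 0
    refine ((f1.union f2).infinite_compl).mono ?_
    intro τ hτ
    rw [Set.mem_compl_iff, Set.mem_union, not_or] at hτ
    obtain ⟨t1, t2⟩ := hτ
    have t2' : rk U₀ ((Mf k).map (Polynomial.eval 0)) ≤ rk U₀ ((Mf k).map (Polynomial.eval τ)) :=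
      not_lt.1 t2
    rw [Mf_eval, Mf_eval, Sm_zero, hU₀, ← rk_mul, ← rk_mul] at t2'
    refine step U (fun S => ?_) g₀ hg₀D k τ t1 (by omega)
    have := h1 S
    omega
  refine ⟨g₀, hg₀, ?_⟩
  have hk : ∀ k : Fin i, X (Fin.last i).castSucc * g₀ ∈ U ∧ X k.castSucc.castSucc * g₀ ∈ U := by
    intro k
    obtain ⟨τ, hτ⟩ := (hgood k).nonempty
    obtain ⟨τ', hτ', hne⟩ := (hgood k).exists_notMem_finset {τ}
    rw [Finset.mem_singleton] at hne
    have e1 : (X (Fin.last i).castSucc + C τ * X k.castSucc.castSucc) * g₀ ∈ U := hτ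
    have e2 : (X (Fin.last i).castSucc + C τ' * X k.castSucc.castSucc) * g₀ ∈ U := hτ'
    have e3 : X k.castSucc.castSucc * g₀ ∈ U := by
      have e4 := U.smul_mem (τ' - τ)⁻¹ (U.sub_mem e2 e1)
      have e5 : (X (Fin.last i).castSucc + C τ' * X k.castSucc.castSucc) * g₀ -
          (X (Fin.last i).castSucc + C τ * X k.castSucc.castSucc) * g₀ =
          (τ' - τ) • ((X k.castSucc.castSucc : Pol (i + 2)) * g₀) := by
        rw [smul_eq_C_mul, C_sub]
        ring
      rw [e5, smul_smul, inv_mul_cancel₀ (sub_ne_zero.2 hne), one_smul] at e4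
      exact e4
    refine ⟨?_, e3⟩
    have e6 := U.sub_mem e1 (U.smul_mem τ e3)
    have e7 : (X (Fin.last i).castSucc + C τ * X k.castSucc.castSucc) * g₀ -
        τ • ((X k.castSucc.castSucc : Pol (i + 2)) * g₀) = X (Fin.last i).castSucc * g₀ := by
      rw [smul_eq_C_mul]
      ring
    rwa [e7] at e6
  intro l
  refine Fin.lastCases hg₀D (fun l' => ?_) l
  refine Fin.lastCases ?_ (fun l'' => ?_) l'
  · exact (hk ⟨0, hi⟩).1
  · exact (hk l'').2

/-! ### invertible matrices -/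

lemma isUnit_of_rank {n : ℕ} (T : Matrix (Fin n) (Fin n) ℂ) (h : T.rank = n) : IsUnit T := by
  rw [← Matrix.mulVec_surjective_iff_isUnit]
  have h1 : LinearMap.range T.mulVecLin = ⊤ := by
    apply Submodule.eq_top_of_finrank_eq
    rw [Module.finrank_fin_fun]
    exact h
  intro y
  have h2 : y ∈ LinearMap.range T.mulVecLin := by
    rw [h1]
    trivial
  exact h2

lemma exists_inv {n : ℕ} (T : Matrix (Fin n) (Fin n) ℂ) (h : T.rank = n) :
    ∃ T' : Matrix (Fin n) (Fin n) ℂ, T * T' = 1 ∧ T' * T = 1 := by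
  obtain ⟨u, hu⟩ := isUnit_of_rank T h
  exact ⟨_, by rw [← hu]; exact u.mul_inv, by rw [← hu]; exact u.inv_mul⟩

lemma rs_one {n : ℕ} (U : Submodule ℂ (Pol n)) : rs U (1 : Matrix (Fin n) (Fin n) ℂ) = U := by
  unfold rs
  rw [Pool.Agent.W2helper12.SOS.res_one]
  exact Submodule.map_id U

/-- (P11) without homogeneity -/
theorem lemH' (J : ℕ) (U : Submodule ℂ (Pol J)) (hf : Module.Finite ℂ U) (hJ : 3 ≤ J)
    (h1 : mx U (J - 1) + 1 = Module.finrank ℂ U) (h2 : mx U (J - 2) + 2 = Module.finrank ℂ U) :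
    ∃ h : Pol J, h ≠ 0 ∧ ∀ k, X k * h ∈ U := by
  obtain ⟨i, rfl⟩ : ∃ i, J = i + 2 := ⟨J - 2, by omega⟩
  have hi : 1 ≤ i := by omega
  have e1 : i + 2 - 1 = i + 1 := by omega
  have e2 : i + 2 - 2 = i := by omega
  rw [e1] at h1
  rw [e2] at h2
  obtain ⟨T, hT⟩ := Pool.Agent.W2helper12.SOS.pB3 (i + 2) (i + 2) 3 ![U, U, LF (i + 2)]
    ![i + 1, i, i + 2]
    (by
      intro l
      fin_cases l
      · exact hf
      · exact hf
      · exact (inferInstance : Module.Finite ℂ (LF (i + 2))))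
    (by
      intro l
      fin_cases l
      · show i + 1 ≤ i + 2
        omega
      · show i ≤ i + 2
        omega
      · exact le_refl (i + 2))
  have t0 : rk U (T * emb (i + 1) (i + 2)) = mx U (i + 1) := hT 0
  have t1 : rk U (T * emb i (i + 2)) = mx U i := hT 1
  have t2 : rk (LF (i + 2)) (T * emb (i + 2) (i + 2)) = mx (LF (i + 2)) (i + 2) := hT 2
  rw [emb_self, Matrix.mul_one, rk_LF, mx_LF Pool.Agent.W2helper12.SOS.pB1 le_rfl] at t2
  obtain ⟨T', hT1, hT2⟩ := exists_inv T t2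
  have hU' : rs (rs U T) T' = U := by
    rw [← rs_mul, hT1, rs_one]
  have hdim : Module.finrank ℂ (rs U T) = Module.finrank ℂ U := by
    apply le_antisymm
    · exact Submodule.finrank_map_le _ _
    · conv_lhs => rw [← hU']
      exact Submodule.finrank_map_le _ _
  obtain ⟨h, hh0, hh⟩ := core hi (rs U T)
    (fun S => by
      rw [← rk_mul, ← rk_mul, t0]
      exact Pool.Agent.W2helper12.SOS.le_mx U hf _ _)
    (by rw [← rk_mul, t0, hdim]; exact h1)
    (by
      rw [← rk_mul, emb_mul (Nat.le_succ i), t1, hdim]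
      exact h2)
  have hid1 : ∀ p, res T' (res T p) = p := by
    intro p
    have := DFunLike.congr_fun (res_mul T T') p
    rw [hT1, Pool.Agent.W2helper12.SOS.res_one, AlgHom.comp_apply] at this
    exact this.symm
  have hid2 : ∀ p, res T (res T' p) = p := by
    intro p
    have := DFunLike.congr_fun (res_mul T' T) p
    rw [hT2, Pool.Agent.W2helper12.SOS.res_one, AlgHom.comp_apply] at this
    exact this.symm
  refine ⟨res T' h, ?_, ?_⟩
  · intro h0
    apply hh0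
    rw [← hid2 h, h0, map_zero]
  · intro k
    have h3 : X k * res T' h = res T' (lf (T k) * h) := by
      rw [map_mul, ← res_X, hid1]
    rw [h3, ← hU']
    exact res_mem (lf_mul_mem (mem_EE.2 hh) _)

theorem lemH : LemH := fun J _ U hf hJ _ h1 h2 => lemH' J U hf hJ h1 h2

end Pool.Agent.W2helper62.SOS
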