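import Pool.Agent.W2helper62.SOS.LemH

/-!
# MP_ce7760_an, project S1FULL, piece P12 (`Star`)
-/

set_option autoImplicit false

open MvPolynomial

namespace Pool.Agent.W2helper62.SOS

open Pool.Agent.W2helper74.SOS
open Pool.Agent.W2helper19.SOS
open Pool.Agent.W2helper12.SOS (pB2 pB1 le_mx mx_att rk_le exists_max)

/-! ### genericity along lines -/

lemma line {n N d : ℕ} (E : Submodule ℂ (Pol n)) (hE : Module.Finite ℂ E)
    (T Q : Matrix (Fin n) (Fin N) ℂ) (S : Matrix (Fin N) (Fin d) ℂ) (t₁ : ℂ) :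
    {t : ℂ | rk E ((T + t • Q) * S) < rk E ((T + t₁ • Q) * S)}.Finite := by
  obtain ⟨F, hF⟩ : ∃ F : Matrix (Fin n) (Fin d) (Polynomial ℂ), ∀ t,
      F.map (Polynomial.eval t) = (T + t • Q) * S := by
    refine ⟨(T * S).map Polynomial.C + (Polynomial.X : Polynomial ℂ) • (Q * S).map Polynomial.C,
      fun t => ?_⟩
    rw [Matrix.add_mul, Matrix.smul_mul]
    ext a b
    show Polynomial.eval t (Polynomial.C _ + Polynomial.X * Polynomial.C _) = _ + t * _
    rw [Polynomial.eval_add, Polynomial.eval_mul, Polynomial.eval_X, Polynomial.eval_C,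
      Polynomial.eval_C]
  have h := pB2 n d E hE F t₁
  simp only [hF] at h
  exact h

/-- all restrictions along the columns selected by `A` have maximal dimension -/
def Good {n N : ℕ} {ι : Type} (E : Submodule ℂ (Pol n)) (A : ι → Σ d : ℕ, Matrix (Fin N) (Fin d) ℂ)
    (T : Matrix (Fin n) (Fin N) ℂ) : Prop := ∀ i, rk E (T * (A i).2) = mx E (A i).1

lemma Good.generic {n N : ℕ} {ι : Type} [Finite ι] {E : Submodule ℂ (Pol n)}
    (hE : Module.Finite ℂ E) {A : ι → Σ d : ℕ, Matrix (Fin N) (Fin d) ℂ}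
    {T : Matrix (Fin n) (Fin N) ℂ} (h : Good E A T) (Q : Matrix (Fin n) (Fin N) ℂ) :
    {t : ℂ | ¬ Good E A (T + t • Q)}.Finite := by
  have h1 : ∀ i, {t : ℂ | rk E ((T + t • Q) * (A i).2) < rk E ((T + (0 : ℂ) • Q) * (A i).2)}.Finite :=
    fun i => line E hE T Q (A i).2 0
  refine (Set.finite_iUnion h1).subset fun t ht => ?_
  have ht' : ¬ Good E A (T + t • Q) := ht
  unfold Good at ht'
  push Not at ht'
  obtain ⟨i, hi⟩ := ht'
  refine Set.mem_iUnion.2 ⟨i, ?_⟩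
  show rk E ((T + t • Q) * (A i).2) < rk E ((T + (0 : ℂ) • Q) * (A i).2)
  rw [zero_smul, add_zero, h i]
  exact lt_of_le_of_ne (le_mx E hE _ _) hi

lemma exists_good {n N : ℕ} {ι : Type} [Fintype ι] (E : Submodule ℂ (Pol n))
    (hE : Module.Finite ℂ E) (A : ι → Σ d : ℕ, Matrix (Fin N) (Fin d) ℂ)
    (hA : ∀ i, ∃ R : Matrix (Fin (A i).1) (Fin N) ℂ, R * (A i).2 = 1) :
    ∃ T : Matrix (Fin n) (Fin N) ℂ, Good E A T := by
  obtain ⟨T, hT⟩ := exists_max (fun T : Matrix (Fin n) (Fin N) ℂ =>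
    ∑ i, rk E (T * (A i).2)) (∑ _i : ι, Module.finrank ℂ E)
    (fun T => Finset.sum_le_sum fun i _ => rk_le E hE _)
  refine ⟨T, ?_⟩
  by_contra hcon
  unfold Good at hcon
  push Not at hcon
  obtain ⟨i, hi⟩ := hcon
  have hlt := lt_of_le_of_ne (le_mx E hE _ _) hi
  obtain ⟨T₀, hT₀⟩ := mx_att E hE (A i).1
  obtain ⟨R, hR⟩ := hA i
  have hT' : T₀ * R * (A i).2 = T₀ := by
    rw [Matrix.mul_assoc, hR, Matrix.mul_one]
  have h1 : ∀ k, {t : ℂ | rk E ((T + t • (T₀ * R - T)) * (A k).2) <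
      rk E ((T + (0 : ℂ) • (T₀ * R - T)) * (A k).2)}.Finite := fun k => line E hE T _ _ 0
  have h3 : {t : ℂ | rk E ((T + t • (T₀ * R - T)) * (A i).2) <
      rk E ((T + (1 : ℂ) • (T₀ * R - T)) * (A i).2)}.Finite := line E hE T _ _ 1
  obtain ⟨t, ht⟩ := ((Set.finite_iUnion h1).union h3).exists_notMem
  rw [Set.mem_union, not_or] at ht
  have h5 : ∀ k, rk E (T * (A k).2) ≤ rk E ((T + t • (T₀ * R - T)) * (A k).2) := by
    intro k
    by_contra hk
    refine ht.1 (Set.mem_iUnion.2 ⟨k, ?_⟩)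
    show _ < rk E ((T + (0 : ℂ) • (T₀ * R - T)) * (A k).2)
    rw [zero_smul, add_zero]
    exact not_le.1 hk
  have h6 : mx E (A i).1 ≤ rk E ((T + t • (T₀ * R - T)) * (A i).2) := by
    by_contra hk
    apply ht.2
    show _ < rk E ((T + (1 : ℂ) • (T₀ * R - T)) * (A i).2)
    rw [one_smul, add_sub_cancel, hT', hT₀]
    exact not_le.1 hk
  have h7 := hT (T + t • (T₀ * R - T))
  have h8 : ∑ k, rk E (T * (A k).2) < ∑ k, rk E ((T + t • (T₀ * R - T)) * (A k).2) :=
    Finset.sum_lt_sum (fun k _ => h5 k) ⟨i, Finset.mem_univ i, lt_of_lt_of_le hlt h6⟩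
  exact absurd h7 (not_le.2 h8)

/-! ### deleting a column -/

/-- the inclusion which misses the coordinate `k` -/
def del {j : ℕ} (k : Fin (j + 1)) : Matrix (Fin (j + 1)) (Fin j) ℂ :=
  fun a b => if a = k.succAbove b then 1 else 0

lemma Pm_del {j : ℕ} (k : Fin (j + 1)) : Pm k * del k = 1 := by
  ext a b
  rw [Matrix.mul_apply, Finset.sum_eq_single (k.succAbove a)]
  · simp [Pm, del, Matrix.one_apply]
  · intro c _ hc
    simp [Pm, hc]
  · simp

lemma del_succAbove {j : ℕ} (k : Fin (j + 1)) (a : Fin j) :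
    del k (k.succAbove a) = Pi.single a 1 := by
  funext b
  simp only [del, Pi.single_apply, Fin.succAbove_right_inj]
  congr 1
  exact propext eq_comm

lemma embT {j n : ℕ} (h : j ≤ n) : (emb j n).transpose * emb j n = 1 := by
  ext a b
  rw [Matrix.mul_apply, Matrix.one_apply, Finset.sum_eq_single (Fin.castLE h b)]
  · simp only [Matrix.transpose_apply, emb, Fin.val_castLE, mul_one, Fin.ext_iff, if_true]
    simp only [eq_comm]
  · intro c _ hc
    have : ¬ ((c : ℕ) = (b : ℕ)) := fun h' => hc (Fin.ext h')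
    simp [emb, this]
  · simp

/-! ### the space `W_T` -/

/-- `{u ∈ E : u|_T ∈ V_1 f}` -/
noncomputable def WW {n j : ℕ} (E : Submodule ℂ (Pol n)) (T : Matrix (Fin n) (Fin j) ℂ)
    (f : Pol j) : Submodule ℂ (Pol n) := E ⊓ (VF f).comap (res T).toLinearMap

lemma WW_le {n j : ℕ} (E : Submodule ℂ (Pol n)) (T : Matrix (Fin n) (Fin j) ℂ) (f : Pol j) :
    WW E T f ≤ E := inf_le_left

instance WW_finite {n j : ℕ} (E : Submodule ℂ (Pol n)) [Module.Finite ℂ E]
    (T : Matrix (Fin n) (Fin j) ℂ) (f : Pol j) : Module.Finite ℂ (WW E T f) :=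
  Submodule.finiteDimensional_of_le (WW_le E T f)

lemma rs_WW {n j : ℕ} (E : Submodule ℂ (Pol n)) (T : Matrix (Fin n) (Fin j) ℂ) (f : Pol j) :
    rs (WW E T f) T ≤ VF f := by
  rintro q hq
  obtain ⟨p, hp, rfl⟩ := mem_rs.1 hq
  exact (Submodule.mem_inf.1 hp).2

lemma finrank_WW {n j : ℕ} (E : Submodule ℂ (Pol n)) [Module.Finite ℂ E]
    (T : Matrix (Fin n) (Fin j) ℂ) {f : Pol j} (hf : f ≠ 0) (hfE : f ∈ EE (rs E T))
    (h : rk E T = Module.finrank ℂ E) : Module.finrank ℂ (WW E T f) = j := by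
  have h1 := finrank_ker_add E T
  have h2 := finrank_ker_add (WW E T f) T
  have h3 : E ⊓ LinearMap.ker (res T).toLinearMap = ⊥ := by
    have : Module.Finite ℂ ↥(E ⊓ LinearMap.ker (res T).toLinearMap) :=
      Submodule.finiteDimensional_inf_left _ _
    rw [← Submodule.finrank_eq_zero (R := ℂ)]
    omega
  have h4 : WW E T f ⊓ LinearMap.ker (res T).toLinearMap = ⊥ := by
    rw [eq_bot_iff, ← h3]
    exact inf_le_inf_right _ (WW_le E T f)
  have h5 : rs (WW E T f) T = VF f := by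
    apply le_antisymm (rs_WW E T f)
    rintro q ⟨w, rfl⟩
    have h6 : lf w * f ∈ rs E T := lf_mul_mem hfE w
    obtain ⟨p, hp, hp2⟩ := mem_rs.1 h6
    refine mem_rs.2 ⟨p, Submodule.mem_inf.2 ⟨hp, ?_⟩, hp2⟩
    exact ⟨w, hp2.symm⟩
  rw [h4, finrank_bot, zero_add] at h2
  rw [← h2]
  unfold rk
  rw [h5, finrank_VF hf]

lemma finrank_WW_le {n j : ℕ} (E : Submodule ℂ (Pol n)) [Module.Finite ℂ E]
    (S : Matrix (Fin n) (Fin j) ℂ) (f : Pol j) (h : rk E S + 1 = Module.finrank ℂ E) :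
    Module.finrank ℂ (WW E S f) ≤ j + 1 := by
  have h1 := finrank_ker_add E S
  have h2 := finrank_ker_add (WW E S f) S
  have h3 : Module.Finite ℂ ↥(E ⊓ LinearMap.ker (res S).toLinearMap) :=
    Submodule.finiteDimensional_inf_left _ _
  have h4 := Submodule.finrank_mono
    (inf_le_inf_right (LinearMap.ker (res S).toLinearMap) (WW_le E S f))
  have h5 := Submodule.finrank_mono (rs_WW E S f)
  have h6 := finrank_VF_le f
  unfold rk at h2
  omega

/-- the step from `T` to `T` without one column -/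
lemma WW_del {n j : ℕ} (hj : 1 ≤ j) (E : Submodule ℂ (Pol n)) [Module.Finite ℂ E]
    (T : Matrix (Fin n) (Fin (j + 1)) ℂ) (k : Fin (j + 1)) {f : Pol (j + 1)} (hf : f ≠ 0)
    (hfE : f ∈ EE (rs E T)) (h : rk E T = Module.finrank ℂ E)
    (hk : rk E (T * del k) + 1 = Module.finrank ℂ E) :
    res (del k) f ≠ 0 ∧ res (del k) f ∈ EE (rs E (T * del k)) ∧
      WW E T f = WW E (T * del k) (res (del k) f) := by
  have h0 : res (del k) f ≠ 0 := by
    intro h0
    have h1 := finrank_ker_add (rs E T) (del k)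
    rw [← rk_mul] at h1
    have h1' : Module.finrank ℂ (rs E T) = rk E T := rfl
    have h2 : VF f ≤ rs E T ⊓ LinearMap.ker (res (del k)).toLinearMap := by
      rintro p ⟨w, rfl⟩
      refine Submodule.mem_inf.2 ⟨lf_mul_mem hfE w, LinearMap.mem_ker.2 ?_⟩
      show res (del k) (lf w * f) = 0
      rw [map_mul, h0, mul_zero]
    have h3 : Module.Finite ℂ ↥(rs E T ⊓ LinearMap.ker (res (del k)).toLinearMap) :=
      Submodule.finiteDimensional_inf_left _ _
    have h4 := Submodule.finrank_mono h2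
    rw [finrank_VF hf] at h4
    omega
  have hEE : res (del k) f ∈ EE (rs E (T * del k)) := by
    rw [mem_EE, rs_mul]
    intro a
    have h1 : X a * res (del k) f = res (del k) (X (k.succAbove a) * f) := by
      rw [map_mul, res_X, del_succAbove, lf_single]
    rw [h1]
    exact res_mem (hfE _)
  refine ⟨h0, hEE, ?_⟩
  have hle : WW E T f ≤ WW E (T * del k) (res (del k) f) := by
    intro u hu
    obtain ⟨hu1, w, hw⟩ := Submodule.mem_inf.1 hu
    refine Submodule.mem_inf.2 ⟨hu1, ?_⟩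
    refine ⟨Matrix.vecMul w (del k), ?_⟩
    have hw' : lf w * f = res T u := hw
    show lf _ * res (del k) f = res (T * del k) u
    rw [res_mul, AlgHom.comp_apply, ← hw', map_mul, res_lf]
  apply Submodule.eq_of_le_of_finrank_le hle
  rw [finrank_WW E T hf hfE h]
  exact finrank_WW_le E _ _ hk

/-- uniqueness -/
lemma WW_unique {n i : ℕ} (E : Submodule ℂ (Pol n)) [Module.Finite ℂ E]
    (S : Matrix (Fin n) (Fin (i + 1)) ℂ) (h : rk E (S * emb i (i + 1)) + 1 = rk E S)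
    {f g : Pol (i + 1)} (hf : f ≠ 0) (hg : g ≠ 0) (hfE : f ∈ EE (rs E S))
    (hgE : g ∈ EE (rs E S)) : WW E S f = WW E S g := by
  have h1 := finrank_EE_le (rs E S)
  have h2 := finrank_DD (rs E S)
  rw [← rk_mul] at h2
  have h2' : Module.finrank ℂ (rs E S) = rk E S := rfl
  have h3 : Module.Finite ℂ (EE (rs E S)) := EE_finite (by omega) _
  have key : ∀ {f g : Pol (i + 1)}, f ≠ 0 → f ∈ EE (rs E S) → g ∈ EE (rs E S) →
      VF g ≤ VF f := by
    intro f g hf hfE hgE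
    have h4 : Submodule.span ℂ {f} = EE (rs E S) := by
      apply Submodule.eq_of_le_of_finrank_le
      · rw [Submodule.span_singleton_le_iff_mem]
        exact hfE
      · rw [finrank_span_singleton hf]
        omega
    rw [← h4] at hgE
    obtain ⟨c, rfl⟩ := Submodule.mem_span_singleton.1 hgE
    rintro p ⟨w, rfl⟩
    refine ⟨c • w, ?_⟩
    show lf (c • w) * f = lf w * (c • f)
    rw [lf_smul, smul_mul_assoc, mul_smul_comm]
  have h5 : VF f = VF g := le_antisymm (key hg hgE hfE) (key hf hfE hgE)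
  unfold WW
  rw [h5]

/-! ### good matrices -/

/-- the selections: nothing deleted, one column deleted, one column and the last one deleted -/
def AA (i : ℕ) : Option (Fin (i + 2) ⊕ Fin (i + 2)) → Σ d : ℕ, Matrix (Fin (i + 2)) (Fin d) ℂ
  | none => ⟨i + 2, 1⟩
  | some (Sum.inl k) => ⟨i + 1, del k⟩
  | some (Sum.inr k) => ⟨i, del k * emb i (i + 1)⟩

lemma AA_inv (i : ℕ) (x : Option (Fin (i + 2) ⊕ Fin (i + 2))) :
    ∃ R : Matrix (Fin (AA i x).1) (Fin (i + 2)) ℂ, R * (AA i x).2 = 1 := by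
  rcases x with _ | k | k
  · exact ⟨(1 : Matrix (Fin (i + 2)) (Fin (i + 2)) ℂ), Matrix.mul_one _⟩
  · exact ⟨Pm k, Pm_del k⟩
  · refine ⟨(emb i (i + 1)).transpose * Pm k, ?_⟩
    show (emb i (i + 1)).transpose * Pm k * (del k * emb i (i + 1)) = 1
    rw [Matrix.mul_assoc, ← Matrix.mul_assoc (Pm k), Pm_del, Matrix.one_mul,
      embT (Nat.le_succ i)]

lemma mx_rs {n N d : ℕ} (E : Submodule ℂ (Pol n)) (hE : Module.Finite ℂ E)
    (T : Matrix (Fin n) (Fin N) ℂ) (S : Matrix (Fin N) (Fin d) ℂ) (h : rk E (T * S) = mx E d) :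
    mx (rs E T) d = mx E d := by
  apply le_antisymm
  · obtain ⟨S', hS'⟩ := mx_att (rs E T) (rs_finite E T) d
    rw [← hS', ← rk_mul]
    exact le_mx E hE _ _
  · rw [← h, rk_mul]
    exact le_mx (rs E T) (rs_finite E T) _ _

section
variable {n i : ℕ} (hi : 1 ≤ i) (E : Submodule ℂ (Pol n)) (hE : Module.Finite ℂ E)
  (e1 : mx E (i + 2) = Module.finrank ℂ E) (e2 : mx E (i + 1) + 1 = Module.finrank ℂ E)
  (e3 : mx E i + 2 = Module.finrank ℂ E)

include hi hE e1 e2 e3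

lemma exists_f {T : Matrix (Fin n) (Fin (i + 2)) ℂ} (hT : Good E (AA i) T) :
    ∃ f : Pol (i + 2), f ≠ 0 ∧ f ∈ EE (rs E T) := by
  have a1 : rk E (T * (1 : Matrix (Fin (i + 2)) (Fin (i + 2)) ℂ)) = mx E (i + 2) := hT none
  have a2 : rk E (T * del 0) = mx E (i + 1) := hT (some (Sum.inl 0))
  have a3 : rk E (T * (del 0 * emb i (i + 1) : Matrix (Fin (i + 2)) (Fin i) ℂ)) = mx E i :=
    hT (some (Sum.inr 0))
  rw [Matrix.mul_one] at a1
  have hr : Module.finrank ℂ (rs E T) = Module.finrank ℂ E := by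
    rw [← e1, ← a1]; rfl
  refine lemH' (i + 2) (rs E T) (rs_finite E T) (by omega) ?_ ?_
  · rw [show i + 2 - 1 = i + 1 by omega, mx_rs (d := i + 1) E hE T _ a2, hr]
    exact e2
  · rw [show i + 2 - 2 = i by omega, mx_rs (d := i) E hE T _ a3, hr]
    exact e3

lemma WW_step {T₁ T₂ : Matrix (Fin n) (Fin (i + 2)) ℂ} (hT₁ : Good E (AA i) T₁)
    (hT₂ : Good E (AA i) T₂) (k : Fin (i + 2)) (hk : T₁ * del k = T₂ * del k)
    {f₁ f₂ : Pol (i + 2)} (hf₁ : f₁ ≠ 0) (hf₂ : f₂ ≠ 0) (h₁ : f₁ ∈ EE (rs E T₁))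
    (h₂ : f₂ ∈ EE (rs E T₂)) : WW E T₁ f₁ = WW E T₂ f₂ := by
  have a1 : ∀ {T}, Good E (AA i) T → rk E T = Module.finrank ℂ E := by
    intro T hT
    have : rk E (T * (1 : Matrix (Fin (i + 2)) (Fin (i + 2)) ℂ)) = mx E (i + 2) := hT none
    rw [Matrix.mul_one] at this
    rw [this, e1]
  have a2 : ∀ {T}, Good E (AA i) T → rk E (T * del k) + 1 = Module.finrank ℂ E := by
    intro T hT
    have : rk E (T * del k) = mx E (i + 1) := hT (some (Sum.inl k))
    rw [this, e2]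
  have a3 : rk E (T₂ * (del k * emb i (i + 1) : Matrix (Fin (i + 2)) (Fin i) ℂ)) = mx E i :=
    hT₂ (some (Sum.inr k))
  obtain ⟨p1, p2, p3⟩ := WW_del (by omega) E T₁ k hf₁ h₁ (a1 hT₁) (a2 hT₁)
  obtain ⟨q1, q2, q3⟩ := WW_del (by omega) E T₂ k hf₂ h₂ (a1 hT₂) (a2 hT₂)
  rw [p3, q3, hk]
  rw [hk] at p2
  have a4 := a2 hT₂
  refine WW_unique E (T₂ * del k) ?_ p1 q1 p2 q2
  rw [Matrix.mul_assoc, a3]
  omega

/-- the diagonal matrix which selects the first `k` columns -/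
noncomputable def dg (N k : ℕ) : Matrix (Fin N) (Fin N) ℂ :=
  Matrix.diagonal fun a => if (a : ℕ) < k then 1 else 0

omit hi hE e1 e2 e3 in
lemma dg_del {j : ℕ} (k : Fin (j + 1)) : dg (j + 1) (k + 1) * del k = dg (j + 1) k * del k := by
  ext a b
  rw [dg, dg, Matrix.diagonal_mul, Matrix.diagonal_mul]
  by_cases h1 : a = k.succAbove b
  · have h4 : a ≠ k := by
      rw [h1]
      exact Fin.succAbove_ne k b
    have h5 : (a : ℕ) ≠ k := fun h => h4 (Fin.ext h)
    have h6 : ((a : ℕ) < k + 1) ↔ ((a : ℕ) < k) := by omega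
    simp only [h6]
  · unfold del
    rw [if_neg h1, mul_zero, mul_zero]

omit hi hE e1 e2 e3 in
lemma dg_zero (N : ℕ) : dg N 0 = 0 := by
  unfold dg
  simp

omit hi hE e1 e2 e3 in
lemma dg_top (N : ℕ) : dg N N = 1 := by
  unfold dg
  simp

lemma path {T Q : Matrix (Fin n) (Fin (i + 2)) ℂ} (hT : Good E (AA i) T)
    (h : ∀ k, k ≤ i + 2 → Good E (AA i) (T + Q * dg (i + 2) k)) {f₀ : Pol (i + 2)}
    (hf₀ : f₀ ≠ 0) (h₀ : f₀ ∈ EE (rs E T)) : ∀ k, k ≤ i + 2 → ∀ f : Pol (i + 2), f ≠ 0 →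
      f ∈ EE (rs E (T + Q * dg (i + 2) k)) → WW E (T + Q * dg (i + 2) k) f = WW E T f₀ := by
  intro k
  induction k with
  | zero =>
    intro _ f hf hfE
    refine WW_step hi E hE e1 e2 e3 (h 0 (by omega)) hT 0 ?_ hf hf₀ hfE h₀
    rw [dg_zero, Matrix.mul_zero, add_zero]
  | succ k ih =>
    intro hk f hf hfE
    obtain ⟨g, hg, hgE⟩ := exists_f hi E hE e1 e2 e3 (h k (by omega))
    rw [← ih (by omega) g hg hgE]
    refine WW_step hi E hE e1 e2 e3 (h (k + 1) hk) (h k (by omega)) ⟨k, by omega⟩ ?_ hf hg hfE hgE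
    have h1 := dg_del (⟨k, by omega⟩ : Fin (i + 1 + 1))
    rw [Matrix.add_mul, Matrix.add_mul, Matrix.mul_assoc, Matrix.mul_assoc]
    congr 2

end

theorem star : Star := by
  intro n D J E hE hhom hJ hJn e1 e2 e3
  obtain ⟨i, rfl⟩ : ∃ i, J = i + 2 := ⟨J - 2, by omega⟩
  have hi : 1 ≤ i := by omega
  rw [show i + 2 - 1 = i + 1 by omega] at e2
  rw [show i + 2 - 2 = i by omega] at e3
  obtain ⟨T, hT⟩ := exists_good E hE (AA i) (AA_inv i)
  obtain ⟨f₀, hf₀, h₀⟩ := exists_f hi E hE e1 e2 e3 hT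
  obtain ⟨W, hW⟩ : ∃ W, W = WW E T f₀ := ⟨_, rfl⟩
  have hWf : Module.Finite ℂ W := by
    rw [hW]
    infer_instance
  have hWr : Module.finrank ℂ W = i + 2 := by
    have a1 : rk E (T * (1 : Matrix (Fin (i + 2)) (Fin (i + 2)) ℂ)) = mx E (i + 2) := hT none
    rw [Matrix.mul_one, e1] at a1
    rw [hW, finrank_WW E T hf₀ h₀ a1]
  obtain ⟨P', hP'⟩ := mx_att W hWf 2
  obtain ⟨P, hP⟩ : ∃ P, P = P' * (emb 2 (i + 2)).transpose := ⟨_, rfl⟩
  have hPe : P * emb 2 (i + 2) = P' := by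
    rw [hP, Matrix.mul_assoc, embT (by omega), Matrix.mul_one]
  have f1 : ∀ k : Fin (i + 3), {t : ℂ | ¬ Good E (AA i) (T + t • ((P - T) * dg (i + 2) k))}.Finite :=
    fun k => hT.generic hE _
  have f2 := line W hWf T (P - T) (emb 2 (i + 2)) 1
  obtain ⟨t, ht⟩ := ((Set.finite_iUnion f1).union f2).exists_notMem
  rw [Set.mem_union, not_or] at ht
  obtain ⟨ht1, ht2⟩ := ht
  have ht1' : ∀ k, k ≤ i + 2 → Good E (AA i) (T + (t • (P - T)) * dg (i + 2) k) := by
    intro k hk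
    by_contra hcon
    refine ht1 (Set.mem_iUnion.2 ⟨⟨k, by omega⟩, ?_⟩)
    show ¬ Good E (AA i) (T + t • ((P - T) * dg (i + 2) k))
    rwa [← Matrix.smul_mul]
  have ht2' : mx W 2 ≤ rk W ((T + t • (P - T)) * emb 2 (i + 2)) := by
    by_contra hcon
    apply ht2
    show rk W ((T + t • (P - T)) * emb 2 (i + 2)) < rk W ((T + (1 : ℂ) • (P - T)) * emb 2 (i + 2))
    rw [one_smul, add_sub_cancel, hPe, hP']
    exact not_le.1 hcon
  obtain ⟨f, hf, hfE⟩ := exists_f hi E hE e1 e2 e3 (ht1' (i + 2) le_rfl)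
  have hpath := path hi E hE e1 e2 e3 hT ht1' hf₀ h₀ (i + 2) le_rfl f hf hfE
  rw [← hW, dg_top, Matrix.mul_one] at hpath
  have hmx : mx W 2 ≤ 2 := by
    refine ht2'.trans ?_
    unfold rk
    rw [rs_mul, ← hpath]
    exact (Submodule.finrank_mono ((rs_mono (rs_WW E _ f) _).trans (rs_VF_le f _))).trans
      (finrank_VF_le _)
  have hWE : W ≤ E := by
    rw [hW]
    exact WW_le E T f₀
  obtain ⟨h, hh⟩ := Pool.Agent.W2helper22.SOSG.g n D W hWf (fun e he => hhom e (hWE he))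
    (by omega) hmx
  have hh0 : h ≠ 0 := by
    rintro rfl
    have : W = ⊥ := by
      rw [Submodule.eq_bot_iff]
      intro e he
      obtain ⟨w, hw⟩ := hh e he
      rw [hw, zero_mul]
    rw [this, finrank_bot] at hWr
    omega
  obtain ⟨F, hF⟩ : ∃ F : (Fin n → ℂ) →ₗ[ℂ] Pol n, F = (LinearMap.mulLeft ℂ h).comp (lfL n) :=
    ⟨_, rfl⟩
  have hFi : Function.Injective F := by
    rw [hF]
    intro a b hab
    exact lf_injective (mul_left_cancel₀ hh0 hab)
  refine ⟨h, W.comap F, hh0, ?_, ?_⟩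
  · have h1 : (W.comap F).map F = W := by
      rw [Submodule.map_comap_eq, inf_eq_right]
      intro e he
      obtain ⟨w, hw⟩ := hh e he
      exact ⟨w, by rw [hw, hF]; rfl⟩
    rw [← hWr]
    conv_rhs => rw [← h1]
    exact (LinearEquiv.finrank_eq (Submodule.equivMapOfInjective F hFi (W.comap F)))
  · intro w hw
    have h1 : F w ∈ W := hw
    rw [hF] at h1
    exact hWE h1

end Pool.Agent.W2helper62.SOS
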